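import Mathlib

set_option autoImplicit false

namespace Pool.Agent.P.MP_0f6975_co

open Real

/- A sine-law comparison. -/
lemma sin_cmp_ge {u v a b : ℝ} (hv : 0 < v) (hvu : v < u) (hu : u < π) (hb : 0 < b)
    (h : a * sin u = b * sin v) (hab : b ≤ a) : π ≤ u + v := by
  by_contra hlt
  push Not at hlt
  have h1 : 0 < sin ((u - v) / 2) := sin_pos_of_pos_of_lt_pi (by linarith) (by linarith)
  have h2 : 0 < cos ((u + v) / 2) := cos_pos_of_mem_Ioo ⟨by linarith [pi_pos], by linarith⟩
  have h3 : sin u - sin v = 2 * sin ((u - v) / 2) * cos ((u + v) / 2) := sin_sub_sin u v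
  have h4 : sin v < sin u := by nlinarith [mul_pos h1 h2]
  have h5 : 0 < sin u := sin_pos_of_pos_of_lt_pi (by linarith) hu
  nlinarith [mul_le_mul_of_nonneg_right hab h5.le, mul_lt_mul_of_pos_left h4 hb]

lemma sin_cmp_le {u v a b : ℝ} (hv : 0 < v) (hvu : v < u) (hu : u < π) (hb : 0 < b)
    (h : a * sin u = b * sin v) (hab : a ≤ b) : u + v ≤ π := by
  by_contra hlt
  push Not at hlt
  have h1 : 0 < sin ((u - v) / 2) := sin_pos_of_pos_of_lt_pi (by linarith) (by linarith)
  have h2 : cos ((u + v) / 2) < 0 :=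
    cos_neg_of_pi_div_two_lt_of_lt (by linarith) (by linarith [pi_pos])
  have h3 : sin u - sin v = 2 * sin ((u - v) / 2) * cos ((u + v) / 2) := sin_sub_sin u v
  have h4 : sin u < sin v := by nlinarith [mul_pos h1 (neg_pos.mpr h2)]
  have h5 : 0 < sin u := sin_pos_of_pos_of_lt_pi (by linarith) hu
  nlinarith [mul_le_mul_of_nonneg_right hab h5.le, mul_lt_mul_of_pos_left h4 hb]

/- Polar form of a vector with positive first coordinate. -/
lemma polar {X Y r : ℝ} (hX : 0 < X) (hr : 0 ≤ r) (h : r ^ 2 = X ^ 2 + Y ^ 2) :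
    0 < r ∧ X = r * cos (arctan (Y / X)) ∧ Y = r * sin (arctan (Y / X)) := by
  have hr0 : 0 < r := by
    rcases hr.lt_or_eq with h0 | h0
    · exact h0
    · rw [← h0] at h; nlinarith [sq_nonneg Y, mul_pos hX hX]
  have hs : √(1 + (Y / X) ^ 2) = r / X := by
    rw [sqrt_eq_iff_mul_self_eq (by positivity) (by positivity)]
    field_simp
    nlinarith
  refine ⟨hr0, ?_, ?_⟩
  · rw [cos_arctan, hs]; field_simp
  · rw [sin_arctan, hs]; field_simp

end Pool.Agent.P.MP_0f6975_co
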