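import Mathlib
import Pool.Agent.P.MP_0f6975_co.Trig

set_option autoImplicit false

namespace Pool.Agent.P.MP_0f6975_co

open Real

/- A cap: a strictly concave chain of points over a base `a b` which is at least as long as the
distances from `a` and from `b` to the points of the chain. -/
structure Cap {ι : Type} (x y : ι → ℝ) (d : ι → ι → ℝ) (C : Finset ι) (a b : ι) : Prop where
  dnn : ∀ i j, 0 ≤ d i j
  dsq : ∀ i j, d i j ^ 2 = (x j - x i) ^ 2 + (y j - y i) ^ 2
  ha : a ∈ C
  hb : b ∈ C
  lo : ∀ i ∈ C, i ≠ a → x a < x i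
  hi : ∀ i ∈ C, i ≠ b → x i < x b
  inj : ∀ i ∈ C, ∀ j ∈ C, x i = x j → i = j
  conc : ∀ i ∈ C, ∀ j ∈ C, ∀ k ∈ C, x i < x j → x j < x k →
    (x j - x i) * (y k - y i) < (x k - x i) * (y j - y i)
  da : ∀ i ∈ C, d a i ≤ d a b
  db : ∀ i ∈ C, d i b ≤ d a b

/- Direction angle of the segment from `i` to `j`. -/
noncomputable def th {ι : Type} (x y : ι → ℝ) (i j : ι) : ℝ := arctan ((y j - y i) / (x j - x i))

variable {ι : Type} {x y : ι → ℝ} {d : ι → ι → ℝ} {C : Finset ι} {a b : ι}

lemma Cap.symm (H : Cap x y d C a b) (i j : ι) : d i j = d j i := by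
  have h1 := H.dsq i j
  have h2 := H.dsq j i
  have h : d i j ^ 2 = d j i ^ 2 := by rw [h1, h2]; ring
  exact (pow_left_inj₀ (H.dnn i j) (H.dnn j i) two_ne_zero).mp h

lemma Cap.pol (H : Cap x y d C a b) {i j : ι} (h : x i < x j) :
    0 < d i j ∧ x j - x i = d i j * cos (th x y i j) ∧ y j - y i = d i j * sin (th x y i j) :=
  polar (sub_pos.mpr h) (H.dnn i j) (H.dsq i j)

lemma Cap.th1 (H : Cap x y d C a b) {i j k : ι} (hi : i ∈ C) (hj : j ∈ C) (hk : k ∈ C)
    (h1 : x i < x j) (h2 : x j < x k) : th x y i k < th x y i j := by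
  apply arctan_strictMono
  have := H.conc i hi j hj k hk h1 h2
  rw [div_lt_div_iff₀ (by linarith) (by linarith)]
  nlinarith

lemma Cap.th2 (H : Cap x y d C a b) {i j k : ι} (hi : i ∈ C) (hj : j ∈ C) (hk : k ∈ C)
    (h1 : x i < x j) (h2 : x j < x k) : th x y j k < th x y i k := by
  apply arctan_strictMono
  have := H.conc i hi j hj k hk h1 h2
  rw [div_lt_div_iff₀ (by linarith) (by linarith)]
  nlinarith

lemma th_lt (i j : ι) : th x y i j < π / 2 := arctan_lt_pi_div_two _
lemma lt_th (i j : ι) : -(π / 2) < th x y i j := neg_pi_div_two_lt_arctan _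

lemma Cap.sineA (H : Cap x y d C a b) {i j k : ι} (h1 : x i < x j) (h2 : x j < x k) :
    d i j * sin (th x y i j - th x y j k) = d i k * sin (th x y i k - th x y j k) := by
  obtain ⟨-, a1, a2⟩ := H.pol h1
  obtain ⟨-, b1, b2⟩ := H.pol h2
  obtain ⟨-, c1, c2⟩ := H.pol (h1.trans h2)
  rw [sin_sub, sin_sub]
  have e1 : d i k * cos (th x y i k) = d i j * cos (th x y i j) + d j k * cos (th x y j k) := by
    linarith
  have e2 : d i k * sin (th x y i k) = d i j * sin (th x y i j) + d j k * sin (th x y j k) := by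
    linarith
  linear_combination (sin (th x y j k)) * e1 - (cos (th x y j k)) * e2

lemma Cap.sineB (H : Cap x y d C a b) {i j k : ι} (h1 : x i < x j) (h2 : x j < x k) :
    d j k * sin (th x y i j - th x y j k) = d i k * sin (th x y i j - th x y i k) := by
  obtain ⟨-, a1, a2⟩ := H.pol h1
  obtain ⟨-, b1, b2⟩ := H.pol h2
  obtain ⟨-, c1, c2⟩ := H.pol (h1.trans h2)
  rw [sin_sub, sin_sub]
  have e1 : d i k * cos (th x y i k) = d i j * cos (th x y i j) + d j k * cos (th x y j k) := by
    linarith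
  have e2 : d i k * sin (th x y i k) = d i j * sin (th x y i j) + d j k * sin (th x y j k) := by
    linarith
  linear_combination (cos (th x y i j)) * e2 - (sin (th x y i j)) * e1

/- Altman's lemma. -/
lemma Cap.altman (H : Cap x y d C a b) {p u v q : ι} (hp : p ∈ C) (hu : u ∈ C) (hv : v ∈ C)
    (hq : q ∈ C) (hpu : x p < x u) (huv : x u ≤ x v) (hvq : x v < x q)
    (hne : p ≠ a ∨ q ≠ b) : d p v < d p q ∨ d u q < d p q := by
  by_contra hcon
  push Not at hcon
  obtain ⟨c1, c2⟩ := hcon
  have hpv : x p < x v := by linarith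
  have huq : x u < x q := by linarith
  have hap : x a ≤ x p := by
    by_cases h : p = a
    · rw [h]
    · exact (H.lo p hp h).le
  have hqb : x q ≤ x b := by
    by_cases h : q = b
    · rw [h]
    · exact (H.hi q hq h).le
  have hau : x a < x u := by linarith
  have hav : x a < x v := by linarith
  have hub : x u < x b := by linarith
  have hvb : x v < x b := by linarith
  have ha := H.ha
  have hb := H.hb
  have t1 : π ≤ (th x y p v - th x y v q) + (th x y p q - th x y v q) := by
    refine sin_cmp_ge (a := d p v) (b := d p q) ?_ ?_ ?_ (H.pol (hpv.trans hvq)).1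
      (H.sineA hpv hvq) c1
    · linarith [H.th2 hp hv hq hpv hvq]
    · linarith [H.th1 hp hv hq hpv hvq]
    · linarith [th_lt (x := x) (y := y) p v, lt_th (x := x) (y := y) v q]
  have t2 : π ≤ (th x y p u - th x y u q) + (th x y p u - th x y p q) := by
    refine sin_cmp_ge (a := d u q) (b := d p q) ?_ ?_ ?_ (H.pol (hpu.trans huq)).1
      (H.sineB hpu huq) c2
    · linarith [H.th1 hp hu hq hpu huq]
    · linarith [H.th2 hp hu hq hpu huq]
    · linarith [th_lt (x := x) (y := y) p u, lt_th (x := x) (y := y) u q]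
  have t3 : (th x y a v - th x y v b) + (th x y a b - th x y v b) ≤ π := by
    refine sin_cmp_le (a := d a v) (b := d a b) ?_ ?_ ?_ (H.pol (hav.trans hvb)).1
      (H.sineA hav hvb) (H.da v hv)
    · linarith [H.th2 ha hv hb hav hvb]
    · linarith [H.th1 ha hv hb hav hvb]
    · linarith [th_lt (x := x) (y := y) a v, lt_th (x := x) (y := y) v b]
  have t4 : (th x y a u - th x y u b) + (th x y a u - th x y a b) ≤ π := by
    refine sin_cmp_le (a := d u b) (b := d a b) ?_ ?_ ?_ (H.pol (hau.trans hub)).1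
      (H.sineB hau hub) (H.db u hu)
    · linarith [H.th1 ha hu hb hau hub]
    · linarith [H.th2 ha hu hb hau hub]
    · linarith [th_lt (x := x) (y := y) a u, lt_th (x := x) (y := y) u b]
  have m1 : p ≠ a → th x y p v < th x y a v ∧ th x y p u < th x y a u := fun h =>
    ⟨H.th2 ha hp hv (H.lo p hp h) hpv, H.th2 ha hp hu (H.lo p hp h) hpu⟩
  have m2 : q ≠ b → th x y v b < th x y v q ∧ th x y u b < th x y u q := fun h =>
    ⟨H.th1 hv hq hb hvq (H.hi q hq h), H.th1 hu hq hb huq (H.hi q hq h)⟩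
  by_cases h1 : p = a
  · have h2 : q ≠ b := by
      rcases hne with h | h
      · exact absurd h1 h
      · exact h
    obtain ⟨m3, m4⟩ := m2 h2
    subst h1
    linarith
  · obtain ⟨m3, m4⟩ := m1 h1
    by_cases h2 : q = b
    · subst h2
      linarith
    · obtain ⟨m5, m6⟩ := m2 h2
      linarith

/- Distances from a high point decrease along the chain (left side). -/
lemma Cap.monoL (H : Cap x y d C a b) {l m w : ι} (hl : l ∈ C) (hm : m ∈ C) (hw : w ∈ C)
    (h1 : x l < x m) (h2 : x m < x w) (hy : y m ≤ y w) : d m w < d l w := by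
  have hc := H.conc l hl m hm w hw h1 h2
  have hlm : y l < y m := by
    by_contra hcon
    push Not at hcon
    nlinarith [mul_nonneg (sub_pos.mpr h1).le (sub_nonneg.mpr hy),
      mul_nonneg (sub_pos.mpr h2).le (sub_nonneg.mpr hcon)]
  have e1 := H.dsq m w
  have e2 := H.dsq l w
  have : d m w ^ 2 < d l w ^ 2 := by rw [e1, e2]; nlinarith
  exact lt_of_pow_lt_pow_left₀ 2 (H.dnn l w) this

/- Distances from a high point decrease along the chain (right side). -/
lemma Cap.monoR (H : Cap x y d C a b) {w m r : ι} (hw : w ∈ C) (hm : m ∈ C) (hr : r ∈ C)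
    (h1 : x w < x m) (h2 : x m < x r) (hy : y m ≤ y w) : d w m < d w r := by
  have hc := H.conc w hw m hm r hr h1 h2
  have hlm : y r < y m := by
    by_contra hcon
    push Not at hcon
    nlinarith [mul_nonneg (sub_pos.mpr h2).le (sub_nonneg.mpr hy),
      mul_nonneg (sub_pos.mpr h1).le (sub_nonneg.mpr hcon)]
  have e1 := H.dsq w m
  have e2 := H.dsq w r
  have : d w m ^ 2 < d w r ^ 2 := by rw [e1, e2]; nlinarith
  exact lt_of_pow_lt_pow_left₀ 2 (H.dnn w r) this

end Pool.Agent.P.MP_0f6975_co
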