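import Mathlib
import Pool.Agent.P.MP_0f6975_co.Cap

set_option autoImplicit false

namespace Pool.Agent.P.MP_0f6975_co

/- The lattice path argument: a strictly decreasing chain of distances. -/
lemma chain {ι : Type} [DecidableEq ι] (x : ι → ℝ) (d : ι → ι → ℝ) (w : ι) (t : ℝ) :
    ∀ (n : ℕ) (S : Finset ι), S.card = n + 2 → w ∈ S →
      (∀ i ∈ S, ∀ j ∈ S, x i = x j → i = j) →
      (∀ l ∈ S, ∀ m ∈ S, x l < x m → x m < x w → d m w < d l w) →
      (∀ m ∈ S, ∀ r ∈ S, x w < x m → x m < x r → d w m < d w r) →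
      (∀ p ∈ S, ∀ u ∈ S, ∀ v ∈ S, ∀ q ∈ S, x p < x u → x u ≤ x v → x v < x q →
        d p v < d p q ∨ d u q < d p q) →
      (∀ l ∈ S, x l < x w → t ≤ d l w) →
      (∀ r ∈ S, x w < x r → t ≤ d w r) →
      ∀ m ∈ S, ∀ M ∈ S, (∀ s ∈ S, x m ≤ x s) → (∀ s ∈ S, x s ≤ x M) →
        ∃ V : Finset ℝ, V.card = n + 1 ∧
          ∀ z ∈ V, t ≤ z ∧ z ≤ d m M ∧ ∃ i j, i ≠ j ∧ z = d i j := by
  intro n
  induction n with
  | zero =>
    intro S hS hw hinj h1 h2 h3 h4 h5 m hm M hM hmin hmax
    have hmM : m ≠ M := by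
      intro h
      have : S.card ≤ 1 := by
        rw [Finset.card_le_one]
        intro i hi j hj
        apply hinj i hi j hj
        have a1 := hmin i hi
        have a2 := hmax i hi
        have a3 := hmin j hj
        have a4 := hmax j hj
        rw [h] at a1 a3
        linarith
      omega
    have hlt : x m < x M := lt_of_le_of_ne (hmin M hM) (fun h => hmM (hinj m hm M hM h))
    have hSeq : ({m, M} : Finset ι) = S := by
      apply Finset.eq_of_subset_of_card_le
      · intro s hs
        rcases Finset.mem_insert.mp hs with h | h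
        · rw [h]; exact hm
        · rw [Finset.mem_singleton.mp h]; exact hM
      · rw [Finset.card_pair hmM]; omega
    refine ⟨{d m M}, by simp, ?_⟩
    intro z hz
    rw [Finset.mem_singleton.mp hz]
    refine ⟨?_, le_rfl, m, M, hmM, rfl⟩
    rw [← hSeq] at hw
    rcases Finset.mem_insert.mp hw with h | h
    · subst h
      exact h5 M hM hlt
    · have h := Finset.mem_singleton.mp h
      subst h
      exact h4 m hm hlt
  | succ n ih =>
    intro S hS hw hinj h1 h2 h3 h4 h5 m hm M hM hmin hmax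
    have hmM : m ≠ M := by
      intro h
      have : S.card ≤ 1 := by
        rw [Finset.card_le_one]
        intro i hi j hj
        apply hinj i hi j hj
        have a1 := hmin i hi
        have a2 := hmax i hi
        have a3 := hmin j hj
        have a4 := hmax j hj
        rw [h] at a1 a3
        linarith
      omega
    -- the finishing step, common to both removals
    have fin : ∀ (e : ι), e ∈ S → e ≠ w → ∀ m' ∈ S.erase e, ∀ M' ∈ S.erase e,
        (∀ s ∈ S.erase e, x m' ≤ x s) → (∀ s ∈ S.erase e, x s ≤ x M') → d m' M' < d m M →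
        ∃ V : Finset ℝ, V.card = n + 1 + 1 ∧
          ∀ z ∈ V, t ≤ z ∧ z ≤ d m M ∧ ∃ i j, i ≠ j ∧ z = d i j := by
      intro e he hew m' hm' M' hM' hmin' hmax' hlt
      have sub : ∀ s ∈ S.erase e, s ∈ S := fun s hs => Finset.mem_of_mem_erase hs
      obtain ⟨V, hV, hV2⟩ := ih (S.erase e) (by rw [Finset.card_erase_of_mem he]; omega)
        (Finset.mem_erase.mpr ⟨hew.symm, hw⟩)
        (fun i hi j hj => hinj i (sub i hi) j (sub j hj))
        (fun l hl k hk => h1 l (sub l hl) k (sub k hk))
        (fun l hl k hk => h2 l (sub l hl) k (sub k hk))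
        (fun p hp u hu v hv q hq => h3 p (sub p hp) u (sub u hu) v (sub v hv) q (sub q hq))
        (fun l hl => h4 l (sub l hl)) (fun l hl => h5 l (sub l hl))
        m' hm' M' hM' hmin' hmax'
      have hnot : d m M ∉ V := fun h => by
        have := (hV2 _ h).2.1
        linarith
      obtain ⟨z0, hz0⟩ : V.Nonempty := Finset.card_pos.mp (by omega)
      have ht : t ≤ d m M := by
        have := hV2 z0 hz0
        linarith [this.1, this.2.1]
      refine ⟨insert (d m M) V, by rw [Finset.card_insert_of_notMem hnot, hV], ?_⟩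
      intro z hz
      rcases Finset.mem_insert.mp hz with h | h
      · rw [h]
        exact ⟨ht, le_rfl, m, M, hmM, rfl⟩
      · obtain ⟨a1, a2, a3⟩ := hV2 z h
        exact ⟨a1, by linarith, a3⟩
    have hmE : m ∈ S.erase M := Finset.mem_erase.mpr ⟨hmM, hm⟩
    have hME : M ∈ S.erase m := Finset.mem_erase.mpr ⟨hmM.symm, hM⟩
    obtain ⟨v, hv, hvmax⟩ := Finset.exists_max_image (S.erase M) x ⟨m, hmE⟩
    obtain ⟨u, hu, humin⟩ := Finset.exists_min_image (S.erase m) x ⟨M, hME⟩
    have hvS : v ∈ S := Finset.mem_of_mem_erase hv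
    have huS : u ∈ S := Finset.mem_of_mem_erase hu
    have hvM : x v < x M :=
      lt_of_le_of_ne (hmax v hvS) (fun h => (Finset.mem_erase.mp hv).1 (hinj v hvS M hM h))
    have hmu : x m < x u :=
      lt_of_le_of_ne (hmin u huS) (fun h => (Finset.mem_erase.mp hu).1 (hinj u huS m hm h.symm))
    -- a third point
    obtain ⟨c, hc⟩ : ((S.erase m).erase M).Nonempty := by
      apply Finset.card_pos.mp
      rw [Finset.card_erase_of_mem hME, Finset.card_erase_of_mem hm]
      omega
    have hcM : c ≠ M := (Finset.mem_erase.mp hc).1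
    have hcm : c ≠ m := (Finset.mem_erase.mp (Finset.mem_erase.mp hc).2).1
    have hcS : c ∈ S := (Finset.mem_erase.mp (Finset.mem_erase.mp hc).2).2
    have huc : x u ≤ x c := humin c (Finset.mem_erase.mpr ⟨hcm, hcS⟩)
    have hcv : x c ≤ x v := hvmax c (Finset.mem_erase.mpr ⟨hcM, hcS⟩)
    have remM : M ≠ w → d m v < d m M → ∃ V : Finset ℝ, V.card = n + 1 + 1 ∧
          ∀ z ∈ V, t ≤ z ∧ z ≤ d m M ∧ ∃ i j, i ≠ j ∧ z = d i j := fun hMw hlt =>
      fin M hM hMw m hmE v hv (fun s hs => hmin s (Finset.mem_of_mem_erase hs)) hvmax hlt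
    have remm : m ≠ w → d u M < d m M → ∃ V : Finset ℝ, V.card = n + 1 + 1 ∧
          ∀ z ∈ V, t ≤ z ∧ z ≤ d m M ∧ ∃ i j, i ≠ j ∧ z = d i j := fun hmw hlt =>
      fin m hm hmw u hu M hME humin (fun s hs => hmax s (Finset.mem_of_mem_erase hs)) hlt
    by_cases hmw : m = w
    · subst hmw
      exact remM hmM.symm (h2 v hvS M hM (by linarith) hvM)
    · by_cases hMw : M = w
      · subst hMw
        exact remm hmw (h1 m hm u huS hmu (by linarith))
      · rcases h3 m hm u huS v hvS M hM hmu (by linarith) hvM with h | h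
        · exact remM hMw h
        · exact remm hmw h

variable {ι : Type} {x y : ι → ℝ} {d : ι → ι → ℝ} {C : Finset ι} {a b : ι}

/- The counting lemma in a cap. -/
lemma Cap.count [DecidableEq ι] (H : Cap x y d C a b) (t : ℝ) (K : Finset ℝ)
    (hK : ∀ i j, i ≠ j → t ≤ d i j → d i j ∈ K) (S : Finset ι) (hS : S ⊆ C) (w : ι) (hw : w ∈ S)
    (hy : ∀ s ∈ S, s ≠ a → s ≠ b → y s ≤ y w)
    (hst : a ∈ S → b ∈ S → ∀ i ∈ C, ∀ j ∈ C, x i < x j → (i ≠ a ∨ j ≠ b) → d i j < d a b)
    (ht : ∀ s ∈ S, s ≠ w → t ≤ d s w) : S.card ≤ K.card + 1 := by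
  have hle : ∀ i ∈ C, x a ≤ x i ∧ x i ≤ x b := by
    intro i hi
    constructor
    · by_cases h : i = a
      · rw [h]
      · exact (H.lo i hi h).le
    · by_cases h : i = b
      · rw [h]
      · exact (H.hi i hi h).le
  by_cases h1 : S.card ≤ 1
  · omega
  obtain ⟨n, hn⟩ : ∃ n, S.card = n + 2 := ⟨S.card - 2, by omega⟩
  obtain ⟨m, hm, hmin⟩ := Finset.exists_min_image S x ⟨w, hw⟩
  obtain ⟨M, hM, hmax⟩ := Finset.exists_max_image S x ⟨w, hw⟩
  obtain ⟨V, hV, hV2⟩ := chain x d w t n S hn hw
    (fun i hi j hj => H.inj i (hS hi) j (hS hj))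
    (fun l hl k hk e1 e2 => H.monoL (hS hl) (hS hk) (hS hw) e1 e2
      (hy k hk (fun h => by rw [h] at e1; linarith [(hle l (hS hl)).1])
        (fun h => by rw [h] at e2; linarith [(hle w (hS hw)).2])))
    (fun k hk r hr e1 e2 => H.monoR (hS hw) (hS hk) (hS hr) e1 e2
      (hy k hk (fun h => by rw [h] at e1; linarith [(hle w (hS hw)).1])
        (fun h => by rw [h] at e2; linarith [(hle r (hS hr)).2])))
    (by
      intro p hp u hu v hv q hq e1 e2 e3
      by_cases hne : p ≠ a ∨ q ≠ b
      · exact H.altman (hS hp) (hS hu) (hS hv) (hS hq) e1 e2 e3 hne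
      · push Not at hne
        obtain ⟨rfl, rfl⟩ := hne
        left
        apply hst hp hq p (hS hp) v (hS hv) (by linarith)
        right
        intro h
        rw [h] at e3
        exact lt_irrefl _ e3)
    (fun l hl e => ht l hl (fun h => by rw [h] at e; exact lt_irrefl _ e))
    (fun r hr e => by
      rw [H.symm]
      exact ht r hr (fun h => by rw [h] at e; exact lt_irrefl _ e))
    m hm M hM hmin hmax
  have hVK : V ⊆ K := by
    intro z hz
    obtain ⟨a1, -, i, j, hij, rfl⟩ := hV2 z hz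
    exact hK i j hij a1
  have := Finset.card_le_card hVK
  omega

/- Greedy colouring of a degenerate graph. -/
lemma greedy [DecidableEq ι] (R : ι → ι → Prop) [DecidableRel R] (hR : ∀ i j, R i j → R j i)
    (k : ℕ) (A : Finset ι)
    (h : ∀ Q ⊆ A, Q.Nonempty → ∃ w ∈ Q, ((Q.erase w).filter (fun z => R z w)).card < k) :
    ∃ c : ι → ℕ, (∀ i ∈ A, c i < k) ∧ ∀ i ∈ A, ∀ j ∈ A, i ≠ j → R i j → c i ≠ c j := by
  induction A using Finset.strongInduction with
  | H A ih =>
    rcases A.eq_empty_or_nonempty with rfl | hA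
    · exact ⟨fun _ => 0, by simp, by simp⟩
    obtain ⟨w, hw, hdeg⟩ := h A le_rfl hA
    obtain ⟨c, hc1, hc2⟩ := ih (A.erase w) (Finset.erase_ssubset hw)
      (fun Q hQ hne => h Q (hQ.trans (Finset.erase_subset _ _)) hne)
    obtain ⟨e, he1, he2⟩ : ∃ e ∈ Finset.range k,
        e ∉ ((A.erase w).filter (fun z => R z w)).image c := by
      apply Finset.exists_mem_notMem_of_card_lt_card
      rw [Finset.card_range]
      exact lt_of_le_of_lt Finset.card_image_le hdeg
    refine ⟨Function.update c w e, ?_, ?_⟩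
    · intro i hi
      by_cases hiw : i = w
      · subst hiw
        simpa using he1
      · rw [Function.update_of_ne hiw]
        exact hc1 i (Finset.mem_erase.mpr ⟨hiw, hi⟩)
    · have key : ∀ j ∈ A, j ≠ w → R j w → c j ≠ e := by
        intro j hj hjw hr hce
        apply he2
        rw [← hce]
        exact Finset.mem_image_of_mem c
          (Finset.mem_filter.mpr ⟨Finset.mem_erase.mpr ⟨hjw, hj⟩, hr⟩)
      intro i hi j hj hij hr
      by_cases hiw : i = w
      · subst hiw
        rw [Function.update_self, Function.update_of_ne hij.symm]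
        exact (key j hj hij.symm (hR _ _ hr)).symm
      · by_cases hjw : j = w
        · subst hjw
          rw [Function.update_self, Function.update_of_ne hij]
          exact key i hi hij hr
        · rw [Function.update_of_ne hiw, Function.update_of_ne hjw]
          exact hc2 i (Finset.mem_erase.mpr ⟨hiw, hi⟩) j (Finset.mem_erase.mpr ⟨hjw, hj⟩) hij hr

/- A cap whose base is strictly the longest distance is colourable with `k + 1` colours. -/
lemma Cap.color_closed [DecidableEq ι] (H : Cap x y d C a b) (t : ℝ) (K : Finset ℝ)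
    (hK : ∀ i j, i ≠ j → t ≤ d i j → d i j ∈ K)
    (hst : ∀ i ∈ C, ∀ j ∈ C, x i < x j → (i ≠ a ∨ j ≠ b) → d i j < d a b) :
    ∃ c : ι → ℕ, (∀ i ∈ C, c i < K.card + 1) ∧
      ∀ i ∈ C, ∀ j ∈ C, i ≠ j → t ≤ d i j → c i ≠ c j := by
  classical
  apply greedy (fun i j => t ≤ d i j) (fun i j h => by rw [H.symm]; exact h)
  intro Q hQ hne
  obtain ⟨w, hw, hmax⟩ := Finset.exists_max_image Q y hne
  refine ⟨w, hw, ?_⟩
  set N := (Q.erase w).filter (fun z => t ≤ d z w) with hN
  have hNQ : ∀ s ∈ N, s ∈ Q ∧ s ≠ w ∧ t ≤ d s w := by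
    intro s hs
    obtain ⟨h1, h2⟩ := Finset.mem_filter.mp hs
    exact ⟨(Finset.mem_erase.mp h1).2, (Finset.mem_erase.mp h1).1, h2⟩
  have hwN : w ∉ N := fun h => (hNQ w h).2.1 rfl
  have hSQ : ∀ s ∈ insert w N, s ∈ Q := by
    intro s hs
    rcases Finset.mem_insert.mp hs with h | h
    · rw [h]; exact hw
    · exact (hNQ s h).1
  have := H.count t K hK (insert w N) (fun s hs => hQ (hSQ s hs)) w (Finset.mem_insert_self _ _)
    (fun s hs _ _ => hmax s (hSQ s hs)) (fun _ _ => hst)
    (by
      intro s hs hsw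
      rcases Finset.mem_insert.mp hs with h | h
      · exact absurd h hsw
      · exact (hNQ s h).2.2)
  rw [Finset.card_insert_of_notMem hwN] at this
  omega

/- The interior of a cap is colourable with `k` colours. -/
lemma Cap.color_open [DecidableEq ι] (H : Cap x y d C a b) (t : ℝ) (K : Finset ℝ)
    (hK : ∀ i j, i ≠ j → t ≤ d i j → d i j ∈ K) (hK0 : 0 < K.card) (hab : a ≠ b) :
    ∃ c : ι → ℕ, (∀ i ∈ (C.erase a).erase b, c i < K.card) ∧
      ∀ i ∈ (C.erase a).erase b, ∀ j ∈ (C.erase a).erase b, i ≠ j → t ≤ d i j → c i ≠ c j := by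
  classical
  apply greedy (fun i j => t ≤ d i j) (fun i j h => by rw [H.symm]; exact h)
  intro Q hQ hne
  obtain ⟨w, hw, hmax⟩ := Finset.exists_max_image Q y hne
  refine ⟨w, hw, ?_⟩
  have hQ' : ∀ s ∈ Q, s ∈ C ∧ s ≠ a ∧ s ≠ b := by
    intro s hs
    have h := Finset.mem_erase.mp (hQ hs)
    have h' := Finset.mem_erase.mp h.2
    exact ⟨h'.2, h'.1, h.1⟩
  set N := (Q.erase w).filter (fun z => t ≤ d z w) with hN
  have hNQ : ∀ s ∈ N, s ∈ Q ∧ s ≠ w ∧ t ≤ d s w := by
    intro s hs
    obtain ⟨h1, h2⟩ := Finset.mem_filter.mp hs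
    exact ⟨(Finset.mem_erase.mp h1).2, (Finset.mem_erase.mp h1).1, h2⟩
  have hwN : w ∉ N := fun h => (hNQ w h).2.1 rfl
  have hSQ : ∀ s ∈ insert w N, s ∈ Q := by
    intro s hs
    rcases Finset.mem_insert.mp hs with h | h
    · rw [h]; exact hw
    · exact (hNQ s h).1
  rcases N.eq_empty_or_nonempty with h0 | ⟨z, hz⟩
  · rw [h0]; simpa using hK0
  obtain ⟨hzQ, hzw, hzt⟩ := hNQ z hz
  obtain ⟨hzC, hza, hzb⟩ := hQ' z hzQ
  obtain ⟨hwC, hwa, hwb⟩ := hQ' w hw
  -- add an end point `e` of the base
  have main : ∀ e, e ∈ C → (e = a ∨ e = b) → t ≤ d e w → N.card < K.card := by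
    intro e heC he het
    have heN : e ∉ insert w N := by
      intro h
      obtain ⟨-, h1, h2⟩ := hQ' e (hSQ e h)
      rcases he with h' | h'
      · exact h1 h'
      · exact h2 h'
    have := H.count t K hK (insert e (insert w N))
      (by
        intro s hs
        rcases Finset.mem_insert.mp hs with h | h
        · rw [h]; exact heC
        · exact (hQ' s (hSQ s h)).1)
      w (Finset.mem_insert_of_mem (Finset.mem_insert_self _ _))
      (by
        intro s hs hsa hsb
        rcases Finset.mem_insert.mp hs with h | h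
        · rcases he with h' | h'
          · exact absurd (h.trans h') hsa
          · exact absurd (h.trans h') hsb
        · exact hmax s (hSQ s h))
      (by
        intro h1 h2
        exfalso
        rcases Finset.mem_insert.mp h1 with h1 | h1
        · rcases Finset.mem_insert.mp h2 with h2 | h2
          · exact hab (h1.trans h2.symm)
          · exact (hQ' b (hSQ b h2)).2.2 rfl
        · exact (hQ' a (hSQ a h1)).2.1 rfl)
      (by
        intro s hs hsw
        rcases Finset.mem_insert.mp hs with h | h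
        · rw [h]; exact het
        · rcases Finset.mem_insert.mp h with h | h
          · exact absurd h hsw
          · exact (hNQ s h).2.2)
    rw [Finset.card_insert_of_notMem heN, Finset.card_insert_of_notMem hwN] at this
    omega
  rcases lt_trichotomy (x z) (x w) with h | h | h
  · apply main a H.ha (Or.inl rfl)
    have := H.monoL H.ha hzC hwC (H.lo z hzC hza) h (hmax z hzQ)
    linarith
  · exact absurd (H.inj z hzC w hwC h) hzw
  · apply main b H.hb (Or.inr rfl)
    have := H.monoR hwC hzC H.hb h (H.hi z hzC hzb) (hmax z hzQ)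
    rw [H.symm] at hzt
    rw [H.symm]
    linarith

end Pool.Agent.P.MP_0f6975_co
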