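import Mathlib
import Pool.Agent.P.MP_0f6975_co.Chain

set_option autoImplicit false

namespace Pool.Agent.P.MP_0f6975_co

/- No point is a convex combination of four other points (repetitions allowed). -/
def NoQuad {ι : Type} (x y : ι → ℝ) : Prop :=
  ∀ i j k l m : ι, j ≠ i → k ≠ i → l ≠ i → m ≠ i → ∀ α β γ δ : ℝ, 0 ≤ α → 0 ≤ β → 0 ≤ γ → 0 ≤ δ →
    α + β + γ + δ = 1 → x i = α * x j + β * x k + γ * x l + δ * x m →
    y i = α * y j + β * y k + γ * y l + δ * y m → False

variable {ι : Type} {x y : ι → ℝ} {d : ι → ι → ℝ} {a b : ι}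

lemma NoQuad.neg (h : NoQuad x y) : NoQuad x (fun i => - y i) := by
  intro i j k l m hj hk hl hm α β γ δ h1 h2 h3 h4 h5 h6 h7
  refine h i j k l m hj hk hl hm α β γ δ h1 h2 h3 h4 h5 h6 ?_
  linarith

/- A frame along a diameter. -/
structure Frame (x y : ι → ℝ) (d : ι → ι → ℝ) (a b : ι) : Prop where
  dnn : ∀ i j, 0 ≤ d i j
  dsq : ∀ i j, d i j ^ 2 = (x j - x i) ^ 2 + (y j - y i) ^ 2
  nq : NoQuad x y
  xa : x a = 0
  ya : y a = 0
  xb : x b = d a b
  yb : y b = 0
  pos : 0 < d a b
  dmax : ∀ i j, d i j ≤ d a b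

lemma Frame.neg (F : Frame x y d a b) : Frame x (fun i => - y i) d a b where
  dnn := F.dnn
  dsq := fun i j => by rw [F.dsq]; ring
  nq := F.nq.neg
  xa := F.xa
  ya := by simp [F.ya]
  xb := F.xb
  yb := by simp [F.yb]
  pos := F.pos
  dmax := F.dmax

lemma Frame.ne (F : Frame x y d a b) : a ≠ b := by
  intro h
  have h1 := F.xa
  have h2 := F.xb
  have h3 := F.pos
  rw [h] at h1
  rw [h] at h2 h3
  linarith

lemma Frame.lo (F : Frame x y d a b) {i : ι} (h : i ≠ a) : 0 < x i := by
  by_contra hx
  push Not at hx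
  have h1 := F.dsq i b
  have h2 : d i b ^ 2 ≤ d a b ^ 2 := pow_le_pow_left₀ (F.dnn i b) (F.dmax i b) 2
  rw [h1, F.xb, F.yb] at h2
  have hp := F.pos
  have h3 : x i ^ 2 + y i ^ 2 ≤ 0 := by nlinarith [mul_nonneg hp.le (neg_nonneg.mpr hx)]
  have hx0 : x i = 0 := by nlinarith [sq_nonneg (x i), sq_nonneg (y i)]
  have hy0 : y i = 0 := by nlinarith [sq_nonneg (x i), sq_nonneg (y i)]
  refine F.nq i a a a a h.symm h.symm h.symm h.symm 1 0 0 0 zero_le_one le_rfl le_rfl le_rfl
    (by ring) ?_ ?_
  · rw [hx0, F.xa]; ring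
  · rw [hy0, F.ya]; ring

lemma Frame.hi (F : Frame x y d a b) {i : ι} (h : i ≠ b) : x i < d a b := by
  by_contra hx
  push Not at hx
  have h1 := F.dsq a i
  have h2 : d a i ^ 2 ≤ d a b ^ 2 := pow_le_pow_left₀ (F.dnn a i) (F.dmax a i) 2
  rw [h1, F.xa, F.ya] at h2
  have hp := F.pos
  have h3 : (x i - d a b) ^ 2 + y i ^ 2 ≤ 0 := by
    nlinarith [mul_nonneg hp.le (sub_nonneg.mpr hx)]
  have hx0 : x i - d a b = 0 := by nlinarith [sq_nonneg (x i - d a b), sq_nonneg (y i)]
  have hy0 : y i = 0 := by nlinarith [sq_nonneg (x i - d a b), sq_nonneg (y i)]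
  refine F.nq i b b b b h.symm h.symm h.symm h.symm 1 0 0 0 zero_le_one le_rfl le_rfl le_rfl
    (by ring) ?_ ?_
  · rw [F.xb]; linarith
  · rw [hy0, F.yb]; ring

lemma Frame.lo' (F : Frame x y d a b) (i : ι) : 0 ≤ x i := by
  by_cases h : i = a
  · rw [h, F.xa]
  · exact (F.lo h).le

lemma Frame.hi' (F : Frame x y d a b) (i : ι) : x i ≤ d a b := by
  by_cases h : i = b
  · rw [h, F.xb]
  · exact (F.hi h).le

/- A point below a point `(x j, h)` of a chord and not below the base is impossible. -/
lemma Frame.below (F : Frame x y d a b) {j i k : ι} (hja : j ≠ a) (hjb : j ≠ b) (hi : i ≠ j)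
    (hk : k ≠ j) (μ : ℝ) (h0 : 0 ≤ μ) (h1 : μ ≤ 1) (hx : x j = μ * x i + (1 - μ) * x k)
    (hy0 : 0 ≤ y j) (hy : y j ≤ μ * y i + (1 - μ) * y k) : False := by
  have hp := F.pos
  have hl := F.lo' j
  have hh := F.hi' j
  set D := d a b with hD
  set h := μ * y i + (1 - μ) * y k with hh'
  rcases (hy0.trans hy).lt_or_eq with hpos | hzero
  · have hlam0 : 0 ≤ y j / h := div_nonneg hy0 hpos.le
    have hlam1 : y j / h ≤ 1 := (div_le_one hpos).mpr hy
    have hnu0 : 0 ≤ x j / D := div_nonneg hl hp.le
    have hnu1 : x j / D ≤ 1 := (div_le_one hp).mpr hh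
    refine F.nq j i k a b hi hk hja.symm hjb.symm (y j / h * μ) (y j / h * (1 - μ))
      ((1 - y j / h) * (1 - x j / D)) ((1 - y j / h) * (x j / D))
      (mul_nonneg hlam0 h0) (mul_nonneg hlam0 (by linarith))
      (mul_nonneg (by linarith) (by linarith)) (mul_nonneg (by linarith) hnu0) (by ring) ?_ ?_
    · rw [F.xa, F.xb, ← hD]
      have e : x j / D * D = x j := div_mul_cancel₀ _ hp.ne'
      linear_combination (y j / h) * hx - (1 - y j / h) * e
    · rw [F.ya, F.yb]
      have e : y j / h * h = y j := div_mul_cancel₀ _ hpos.ne'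
      linear_combination (-1 : ℝ) * e + (y j / h) * hh'
  · have hyj : y j = 0 := by linarith
    have hnu0 : 0 ≤ x j / D := div_nonneg hl hp.le
    have hnu1 : x j / D ≤ 1 := (div_le_one hp).mpr hh
    refine F.nq j a b a b hja.symm hjb.symm hja.symm hjb.symm (1 - x j / D) (x j / D) 0 0
      (by linarith) hnu0 le_rfl le_rfl (by ring) ?_ ?_
    · rw [F.xa, F.xb, ← hD]
      have e : x j / D * D = x j := div_mul_cancel₀ _ hp.ne'
      linear_combination (-1 : ℝ) * e
    · rw [F.ya, F.yb, hyj]; ring

lemma Frame.y_ne (F : Frame x y d a b) {j : ι} (hja : j ≠ a) (hjb : j ≠ b) : y j ≠ 0 := by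
  intro h
  have hp := F.pos
  refine F.below hja hjb hjb.symm hja.symm (x j / d a b) (div_nonneg (F.lo' j) hp.le)
    ((div_le_one hp).mpr (F.hi' j)) ?_ h.ge ?_
  · rw [F.xa, F.xb]; field_simp; ring
  · rw [F.ya, F.yb, h]; simp

open Classical in
/- The closed upper side of a frame. -/
noncomputable def upper [Fintype ι] (y : ι → ℝ) (a b : ι) : Finset ι :=
  Finset.univ.filter (fun i => i = a ∨ i = b ∨ 0 < y i)

lemma mem_upper [Fintype ι] {i : ι} : i ∈ upper y a b ↔ i = a ∨ i = b ∨ 0 < y i := by
  simp [upper]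

lemma Frame.upper_nonneg [Fintype ι] (F : Frame x y d a b) {i : ι} (hi : i ∈ upper y a b) :
    0 ≤ y i := by
  rcases mem_upper.mp hi with h | h | h
  · rw [h, F.ya]
  · rw [h, F.yb]
  · exact h.le

lemma Frame.cap [Fintype ι] (F : Frame x y d a b) : Cap x y d (upper y a b) a b where
  dnn := F.dnn
  dsq := F.dsq
  ha := mem_upper.mpr (Or.inl rfl)
  hb := mem_upper.mpr (Or.inr (Or.inl rfl))
  lo := fun i _ h => by rw [F.xa]; exact F.lo h
  hi := fun i _ h => by rw [F.xb]; exact F.hi h
  inj := by
    have key : ∀ i ∈ upper y a b, ∀ j ∈ upper y a b, x i = x j → y i ≤ y j → i = j := by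
      intro i hi j hj hx hy
      by_contra hij
      by_cases hia : i = a
      · have : j ≠ a := fun h => hij (hia.trans h.symm)
        have h2 := F.lo this
        rw [← hx, hia, F.xa] at h2
        exact lt_irrefl _ h2
      by_cases hib : i = b
      · have : j ≠ b := fun h => hij (hib.trans h.symm)
        have h2 := F.hi this
        rw [← hx, hib, F.xb] at h2
        exact lt_irrefl _ h2
      exact F.below hia hib (Ne.symm hij) (Ne.symm hij) 1 zero_le_one le_rfl (by linarith)
        (F.upper_nonneg hi) (by linarith)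
    intro i hi j hj hx
    rcases le_total (y i) (y j) with h | h
    · exact key i hi j hj hx h
    · exact (key j hj i hi hx.symm h).symm
  conc := by
    intro i hi j hj k hk h1 h2
    by_contra hcon
    push Not at hcon
    have hja : j ≠ a := fun h => by
      rw [h, F.xa] at h1
      linarith [F.lo' i]
    have hjb : j ≠ b := fun h => by
      rw [h, F.xb] at h2
      linarith [F.hi' k]
    have hij : i ≠ j := fun h => by rw [h] at h1; exact lt_irrefl _ h1
    have hkj : k ≠ j := fun h => by rw [h] at h2; exact lt_irrefl _ h2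
    have hw : 0 < x k - x i := by linarith
    refine F.below hja hjb hij hkj ((x k - x j) / (x k - x i))
      (div_nonneg (by linarith) hw.le) ((div_le_one hw).mpr (by linarith)) ?_
      (F.upper_nonneg hj) ?_
    · field_simp; ring
    · have e : (x k - x j) / (x k - x i) * y i + (1 - (x k - x j) / (x k - x i)) * y k
          = ((x k - x j) * y i + (x j - x i) * y k) / (x k - x i) := by
        field_simp; ring
      rw [e, le_div_iff₀ hw]
      nlinarith
  da := fun i _ => F.dmax a i
  db := fun i _ => F.dmax i b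

/- Points strictly to the left of a chord of the upper side are strictly above the base. -/
lemma Frame.left_sub [Fintype ι] (F : Frame x y d a b) {i j : ι} (hi : i ∈ upper y a b)
    (hj : j ∈ upper y a b) (hij : x i < x j) (z : ι)
    (hz : 0 < (x j - x i) * (y z - y i) - (y j - y i) * (x z - x i)) : 0 < y z := by
  by_contra hy
  push Not at hy
  have H := F.cap
  have hp := F.pos
  have ea : (x j - x i) * (0 - y i) - (y j - y i) * (0 - x i) ≤ 0 := by
    by_cases h : i = a
    · rw [h, F.xa, F.ya]; simp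
    · have := H.conc a H.ha i hi j hj (H.lo i hi h) hij
      rw [F.xa, F.ya] at this
      nlinarith
  have eb : (x j - x i) * (0 - y i) - (y j - y i) * (d a b - x i) ≤ 0 := by
    by_cases h : j = b
    · rw [h, F.xb, F.yb]; apply le_of_eq; ring
    · have := H.conc i hi j hj b H.hb hij (H.hi j hj h)
      rw [F.xb, F.yb] at this
      nlinarith
  have l1 := F.lo' z
  have l2 := F.hi' z
  have e3 : (x j - x i) * y z ≤ 0 := mul_nonpos_of_nonneg_of_nonpos (by linarith) hy
  have e4 := mul_nonpos_of_nonneg_of_nonpos (sub_nonneg.mpr l2) ea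
  have e5 := mul_nonpos_of_nonneg_of_nonpos l1 eb
  have e6 := mul_nonpos_of_nonneg_of_nonpos hp.le e3
  have e7 := mul_pos hp hz
  nlinarith

/- Colouring from a frame whose upper side contains no other diameter. -/
lemma Frame.color [Fintype ι] [DecidableEq ι] (F : Frame x y d a b) (t : ℝ) (K : Finset ℝ)
    (hK : ∀ i j, i ≠ j → t ≤ d i j → d i j ∈ K) (hK0 : 0 < K.card)
    (hst : ∀ i ∈ upper y a b, ∀ j ∈ upper y a b, x i < x j → (i ≠ a ∨ j ≠ b) → d i j < d a b) :
    ∃ c : ι → ℕ, (∀ i, c i < 2 * K.card + 1) ∧ ∀ i j, i ≠ j → t ≤ d i j → c i ≠ c j := by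
  obtain ⟨c1, h1, h2⟩ := F.cap.color_closed t K hK hst
  obtain ⟨c2, h3, h4⟩ := F.neg.cap.color_open t K hK hK0 F.ne
  have low : ∀ i, i ∉ upper y a b → i ∈ ((upper (fun i => - y i) a b).erase a).erase b := by
    intro i hi
    rw [mem_upper] at hi
    push Not at hi
    obtain ⟨a1, a2, a3⟩ := hi
    refine Finset.mem_erase.mpr ⟨a2, Finset.mem_erase.mpr ⟨a1, mem_upper.mpr ?_⟩⟩
    right; right
    have := F.y_ne a1 a2
    have : y i < 0 := lt_of_le_of_ne a3 this
    linarith
  refine ⟨fun i => if i ∈ upper y a b then c1 i else K.card + 1 + c2 i, ?_, ?_⟩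
  · intro i
    by_cases hi : i ∈ upper y a b
    · simp only [hi, if_true]
      have := h1 i hi
      omega
    · simp only [hi, if_false]
      have := h3 i (low i hi)
      omega
  · intro i j hij ht
    by_cases hi : i ∈ upper y a b <;> by_cases hj : j ∈ upper y a b
    · simp only [hi, hj, if_true]
      exact h2 i hi j hj hij ht
    · simp only [hi, hj, if_true, if_false]
      have := h1 i hi
      omega
    · simp only [hi, hj, if_true, if_false]
      have := h1 j hj
      omega
    · simp only [hi, hj, if_false]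
      have := h4 i (low i hi) j (low j hj) hij ht
      omega

/- The main theorem in coordinates. -/
theorem color_coords [Fintype ι] [DecidableEq ι] (u v : ι → ℝ) (d : ι → ι → ℝ)
    (dnn : ∀ i j, 0 ≤ d i j) (dsq : ∀ i j, d i j ^ 2 = (u j - u i) ^ 2 + (v j - v i) ^ 2)
    (nq : NoQuad u v) (i0 j0 : ι) (h0 : i0 ≠ j0) (t : ℝ) (K : Finset ℝ)
    (hK : ∀ i j, i ≠ j → t ≤ d i j → d i j ∈ K) (hK0 : 0 < K.card) :
    ∃ c : ι → ℕ, (∀ i, c i < 2 * K.card + 1) ∧ ∀ i j, i ≠ j → t ≤ d i j → c i ≠ c j := by
  classical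
  obtain ⟨q0, -, hq0⟩ := Finset.exists_max_image (Finset.univ : Finset (ι × ι))
    (fun q => d q.1 q.2) ⟨(i0, j0), Finset.mem_univ _⟩
  set D := d q0.1 q0.2 with hD
  have hmax : ∀ i j, d i j ≤ D := fun i j => hq0 (i, j) (Finset.mem_univ _)
  have hDpos : 0 < D := by
    refine lt_of_lt_of_le ?_ (hmax i0 j0)
    rcases (dnn i0 j0).lt_or_eq with h | h
    · exact h
    · exfalso
      have h1 := dsq i0 j0
      rw [← h] at h1
      have hx : u j0 - u i0 = 0 := by nlinarith [sq_nonneg (u j0 - u i0), sq_nonneg (v j0 - v i0)]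
      have hy : v j0 - v i0 = 0 := by nlinarith [sq_nonneg (u j0 - u i0), sq_nonneg (v j0 - v i0)]
      exact nq i0 j0 j0 j0 j0 h0.symm h0.symm h0.symm h0.symm 1 0 0 0 zero_le_one le_rfl le_rfl
        le_rfl (by ring) (by linarith) (by linarith)
  set cr : ι → ι → ι → ℝ :=
    fun i j z => (u j - u i) * (v z - v i) - (v j - v i) * (u z - u i) with hcr
  set L : ι × ι → Finset ι := fun q => Finset.univ.filter (fun z => 0 < cr q.1 q.2 z) with hL
  obtain ⟨⟨a, b⟩, hab, hmin⟩ := Finset.exists_min_image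
    ((Finset.univ : Finset (ι × ι)).filter (fun q => d q.1 q.2 = D)) (fun q => (L q).card)
    ⟨q0, by simp [hD]⟩
  have hab : d a b = D := (Finset.mem_filter.mp hab).2
  have hDsq : D ^ 2 = (u b - u a) ^ 2 + (v b - v a) ^ 2 := by rw [← hab]; exact dsq a b
  set x : ι → ℝ := fun i => ((u b - u a) * (u i - u a) + (v b - v a) * (v i - v a)) / D with hx
  set y : ι → ℝ := fun i => ((u b - u a) * (v i - v a) - (v b - v a) * (u i - u a)) / D with hy
  have hD0 : D ≠ 0 := hDpos.ne'
  have ex : ∀ i, D * x i = (u b - u a) * (u i - u a) + (v b - v a) * (v i - v a) := by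
    intro i; simp only [hx]; field_simp
  have ey : ∀ i, D * y i = (u b - u a) * (v i - v a) - (v b - v a) * (u i - u a) := by
    intro i; simp only [hy]; field_simp
  have hD2 : D ^ 2 ≠ 0 := pow_ne_zero 2 hD0
  have eu : ∀ i, D * (u i - u a) = (u b - u a) * x i - (v b - v a) * y i := by
    intro i
    apply mul_left_cancel₀ hD0
    linear_combination (u i - u a) * hDsq - (u b - u a) * ex i + (v b - v a) * ey i
  have ev : ∀ i, D * (v i - v a) = (v b - v a) * x i + (u b - u a) * y i := by
    intro i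
    apply mul_left_cancel₀ hD0
    linear_combination (v i - v a) * hDsq - (v b - v a) * ex i - (u b - u a) * ey i
  have F : Frame x y d a b := by
    refine ⟨dnn, ?_, ?_, ?_, ?_, ?_, ?_, ?_, ?_⟩
    · intro i j
      rw [dsq]
      apply mul_left_cancel₀ hD2
      have e1 : D * (u j - u i) = (u b - u a) * (x j - x i) - (v b - v a) * (y j - y i) := by
        linear_combination eu j - eu i
      have e2 : D * (v j - v i) = (v b - v a) * (x j - x i) + (u b - u a) * (y j - y i) := by
        linear_combination ev j - ev i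
      calc D ^ 2 * ((u j - u i) ^ 2 + (v j - v i) ^ 2)
          = (D * (u j - u i)) ^ 2 + (D * (v j - v i)) ^ 2 := by ring
        _ = D ^ 2 * ((x j - x i) ^ 2 + (y j - y i) ^ 2) := by rw [e1, e2, hDsq]; ring
    · intro i j k l m hj hk hl hm α β γ δ h1 h2 h3 h4 h5 h6 h7
      refine nq i j k l m hj hk hl hm α β γ δ h1 h2 h3 h4 h5 ?_ ?_
      · apply mul_left_cancel₀ hD0
        linear_combination eu i - α * eu j - β * eu k - γ * eu l - δ * eu m
          + (u b - u a) * h6 - (v b - v a) * h7 - D * u a * h5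
      · apply mul_left_cancel₀ hD0
        linear_combination ev i - α * ev j - β * ev k - γ * ev l - δ * ev m
          + (v b - v a) * h6 + (u b - u a) * h7 - D * v a * h5
    · simp [hx]
    · simp [hy]
    · rw [hab]
      apply mul_left_cancel₀ hD0
      linear_combination ex b - hDsq
    · apply mul_left_cancel₀ hD0
      linear_combination ey b
    · rw [hab]; exact hDpos
    · rw [hab]; exact hmax
  have ecr : ∀ i j z, cr i j z = (x j - x i) * (y z - y i) - (y j - y i) * (x z - x i) := by
    intro i j z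
    apply mul_left_cancel₀ hD2
    have e1 : ∀ j, D * (u j - u i) = (u b - u a) * (x j - x i) - (v b - v a) * (y j - y i) := by
      intro j; linear_combination eu j - eu i
    have e2 : ∀ j, D * (v j - v i) = (v b - v a) * (x j - x i) + (u b - u a) * (y j - y i) := by
      intro j; linear_combination ev j - ev i
    calc D ^ 2 * cr i j z
        = (D * (u j - u i)) * (D * (v z - v i)) - (D * (v j - v i)) * (D * (u z - u i)) := by
          simp only [hcr]; ring
      _ = D ^ 2 * ((x j - x i) * (y z - y i) - (y j - y i) * (x z - x i)) := by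
          rw [e1, e2, e1, e2, hDsq]; ring
  have eLab : ∀ z, z ∈ L (a, b) ↔ 0 < y z := by
    intro z
    simp only [hL, Finset.mem_filter, Finset.mem_univ, true_and]
    rw [ecr, F.xa, F.ya, F.xb, F.yb, hab]
    constructor
    · intro h
      by_contra hc
      push Not at hc
      nlinarith [mul_nonneg hDpos.le (neg_nonneg.mpr hc)]
    · intro h
      nlinarith [mul_pos hDpos h]
  apply F.color t K hK hK0
  intro i hi j hj hij hne
  rw [hab]
  refine lt_of_le_of_ne (hmax i j) ?_
  intro heq
  have h1 := hmin (i, j) (Finset.mem_filter.mpr ⟨Finset.mem_univ _, heq⟩)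
  have hsub : L (i, j) ⊆ L (a, b) := by
    intro z hz
    rw [eLab]
    simp only [hL, Finset.mem_filter, Finset.mem_univ, true_and] at hz
    rw [ecr] at hz
    exact F.left_sub hi hj hij z hz
  have hss : L (i, j) ⊂ L (a, b) := by
    rw [Finset.ssubset_iff_of_subset hsub]
    rcases hne with h | h
    · refine ⟨i, ?_, ?_⟩
      · rw [eLab]
        rcases mem_upper.mp hi with h' | h' | h'
        · exact absurd h' h
        · rw [h', F.xb] at hij
          linarith [F.hi' j]
        · exact h'
      · simp [hL, hcr]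
    · refine ⟨j, ?_, ?_⟩
      · rw [eLab]
        rcases mem_upper.mp hj with h' | h' | h'
        · rw [h', F.xa] at hij
          linarith [F.lo' i]
        · exact absurd h' h
        · exact h'
      · simp only [hL, hcr, Finset.mem_filter, Finset.mem_univ, true_and, not_lt]
        apply le_of_eq; ring
  have := Finset.card_lt_card hss
  omega

end Pool.Agent.P.MP_0f6975_co
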