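import Mathlib

/-! A convex polygon with quadratically many vertices whose graph of large distances contains four
pairwise adjacent vertices. -/

set_option autoImplicit false

namespace Pool.Agent.P.MP_0f6975_co.Quad

abbrev E := EuclideanSpace ℝ (Fin 2)

noncomputable def pt (x y : ℝ) : E := !₂[x, y]

theorem dist_pt (a b c d : ℝ) : dist (pt a b) (pt c d) = √((a - c) ^ 2 + (b - d) ^ 2) := by
  simp [pt, EuclideanSpace.dist_eq, Fin.sum_univ_two, Real.dist_eq, sq_abs]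

theorem pt_inj {a b c d : ℝ} : pt a b = pt c d ↔ a = c ∧ b = d := by
  constructor
  · intro h
    exact ⟨congrArg (fun v : E => v 0) h, congrArg (fun v : E => v 1) h⟩
  · rintro ⟨rfl, rfl⟩
    rfl

theorem notMem_hull {P : Set E} {x : E} (α β : ℝ)
    (h : ∀ y ∈ P, y ≠ x → α * y 0 + β * y 1 < α * x 0 + β * x 1) :
    x ∉ convexHull ℝ (P \ {x}) := by
  intro hx
  have hl : IsLinearMap ℝ fun y : E => α * y 0 + β * y 1 :=
    ⟨fun u v => by simp; ring, fun c u => by simp; ring⟩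
  have := convexHull_min (fun y hy => h y hy.1 hy.2) (convex_halfSpace_lt hl _) hx
  exact lt_irrefl (α * x 0 + β * x 1) this

noncomputable def s (i : ℕ) : ℝ := 1 / 10 * (1 / 4) ^ i
noncomputable def eta (I j : ℕ) : ℝ := s I ^ 2 / 4 * (1 / 2) ^ j
noncomputable def hh (I i j : ℕ) : ℝ := 3 / 2 + (eta I j - s i ^ 2) / 2
noncomputable def xx (I i j : ℕ) : ℝ := √(9 / 4 + s i ^ 2 - hh I i j ^ 2)
noncomputable def U (I : ℕ) (z : ℕ × ℕ) : E := pt (-xx I z.1 z.2) (-hh I z.1 z.2)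

theorem s_pos (i : ℕ) : 0 < s i := by
  unfold s
  positivity

theorem s_le (i : ℕ) : s i ≤ 1 / 10 := by
  unfold s
  have : (1 / 4 : ℝ) ^ i ≤ 1 := pow_le_one₀ (by norm_num) (by norm_num)
  linarith

theorem s_lt {i j : ℕ} (h : i < j) : 4 * s j ≤ s i := by
  unfold s
  have : (1 / 4 : ℝ) ^ j ≤ (1 / 4) ^ (i + 1) :=
    pow_le_pow_of_le_one (by norm_num) (by norm_num) h
  rw [pow_succ] at this
  linarith

theorem s_inj {i j : ℕ} (h : s i ^ 2 = s j ^ 2) : i = j := by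
  have h1 := s_pos i
  have h2 := s_pos j
  rcases lt_trichotomy i j with h3 | h3 | h3
  · have := s_lt h3
    nlinarith
  · exact h3
  · have := s_lt h3
    nlinarith

theorem eta_pos (I j : ℕ) : 0 < eta I j := by
  unfold eta
  have := s_pos I
  positivity

theorem eta_le (I j : ℕ) : eta I j ≤ s I ^ 2 / 4 := by
  unfold eta
  have : (1 / 2 : ℝ) ^ j ≤ 1 := pow_le_one₀ (by norm_num) (by norm_num)
  have h2 : 0 ≤ s I ^ 2 / 4 := by positivity
  nlinarith

theorem eta_inj {I i j : ℕ} (h : eta I i = eta I j) : i = j := by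
  unfold eta at h
  have h1 : s I ^ 2 / 4 ≠ 0 := by
    have := s_pos I
    positivity
  exact pow_right_injective₀ (by norm_num) (by norm_num) (mul_left_cancel₀ h1 h)

theorem facts {I i : ℕ} (hi : i < I) (j : ℕ) :
    xx I i j ^ 2 + hh I i j ^ 2 = 9 / 4 + s i ^ 2 ∧ 7 / 5 * s i ≤ xx I i j ∧
      xx I i j ≤ 8 / 5 * s i ∧ 149 / 100 ≤ hh I i j ∧ hh I i j ≤ 3 / 2 := by
  have h1 := s_pos i
  have h2 := s_le i
  have h3 := s_lt hi
  have h4 := s_pos I
  have h5 := eta_pos I j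
  have h6 : eta I j ≤ s i ^ 2 / 4 := by
    have := eta_le I j
    nlinarith
  have h7 : s i ^ 2 ≤ 1 / 100 := by nlinarith
  have h8 : (7 / 5 * s i) ^ 2 ≤ 9 / 4 + s i ^ 2 - hh I i j ^ 2 := by
    unfold hh
    nlinarith
  have h9 : 9 / 4 + s i ^ 2 - hh I i j ^ 2 ≤ (8 / 5 * s i) ^ 2 := by
    unfold hh
    nlinarith [sq_nonneg (eta I j - s i ^ 2)]
  refine ⟨?_, Real.le_sqrt_of_sq_le h8, Real.sqrt_le_iff.2 ⟨by positivity, h9⟩, ?_, ?_⟩
  · rw [xx, Real.sq_sqrt (le_trans (by positivity) h8)]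
    ring
  · unfold hh
    linarith
  · unfold hh
    nlinarith

theorem dU_p {I : ℕ} {z : ℕ × ℕ} (hi : z.1 < I) :
    dist (U I z) (pt 0 0) = √(9 / 4 + s z.1 ^ 2) := by
  rw [U, dist_pt, ← (facts hi z.2).1]
  congr 1
  ring

theorem dU_q {I : ℕ} {z : ℕ × ℕ} (hi : z.1 < I) :
    dist (U I z) (pt 0 1) = √(25 / 4 + eta I z.2) := by
  rw [U, dist_pt]
  congr 1
  have := (facts hi z.2).1
  have e : hh I z.1 z.2 = 3 / 2 + (eta I z.2 - s z.1 ^ 2) / 2 := rfl
  nlinarith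

theorem U_inj {I : ℕ} {z w : ℕ × ℕ} (hz : z.1 < I) (hw : w.1 < I) (h : U I z = U I w) : z = w := by
  have h1 := dU_p hz
  have h2 := dU_q hz
  rw [h, dU_p hw, Real.sqrt_inj (by positivity) (by positivity)] at h1
  have := eta_pos I z.2
  have := eta_pos I w.2
  rw [h, dU_q hw, Real.sqrt_inj (by positivity) (by positivity)] at h2
  exact Prod.ext (s_inj (by linarith)) (eta_inj (I := I) (by linarith))

theorem U_supp {I : ℕ} {z w : ℕ × ℕ} (hz : z.1 < I) (hw : w.1 < I) (h : U I w ≠ U I z) :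
    xx I z.1 z.2 * xx I w.1 w.2 + hh I z.1 z.2 * hh I w.1 w.2 < 9 / 4 + s z.1 ^ 2 := by
  obtain ⟨a1, a2, a3, -, -⟩ := facts hz z.2
  obtain ⟨b1, b2, b3, -, -⟩ := facts hw w.2
  have h1 := s_pos z.1
  have h2 := s_pos w.1
  have h0 : 0 < (xx I z.1 z.2 - xx I w.1 w.2) ^ 2 + (hh I z.1 z.2 - hh I w.1 w.2) ^ 2 := by
    by_contra h3
    apply h
    have h4 : xx I z.1 z.2 - xx I w.1 w.2 = 0 := by
      nlinarith [sq_nonneg (xx I z.1 z.2 - xx I w.1 w.2), sq_nonneg (hh I z.1 z.2 - hh I w.1 w.2)]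
    have h5 : hh I z.1 z.2 - hh I w.1 w.2 = 0 := by
      nlinarith [sq_nonneg (xx I z.1 z.2 - xx I w.1 w.2), sq_nonneg (hh I z.1 z.2 - hh I w.1 w.2)]
    rw [U, U, pt_inj]
    constructor <;> linarith
  rcases lt_trichotomy z.1 w.1 with h3 | h3 | h3
  · have := s_lt h3
    nlinarith
  · have h4 : s w.1 = s z.1 := by rw [h3]
    rw [h4] at b1
    nlinarith
  · have h4 := s_lt h3
    have h5 : s w.1 ≤ xx I w.1 w.2 - xx I z.1 z.2 := by linarith
    nlinarith [sq_nonneg (hh I z.1 z.2 - hh I w.1 w.2)]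

noncomputable def cc (I : ℕ) : E := pt (-(s I / 4)) (-1)

open Classical in
noncomputable def PP (I J : ℕ) : Finset E :=
  insert (cc I) (insert (pt 0 0) (insert (pt 0 1)
    ((Finset.range I ×ˢ Finset.range J).image (U I))))

theorem mem_PP {I J : ℕ} {x : E} : x ∈ PP I J ↔
    x = cc I ∨ x = pt 0 0 ∨ x = pt 0 1 ∨ ∃ z : ℕ × ℕ, (z.1 < I ∧ z.2 < J) ∧ U I z = x := by
  simp only [PP, Finset.mem_insert, Finset.mem_image, Finset.mem_product, Finset.mem_range]

theorem card_PP (I J : ℕ) : (PP I J).card = I * J + 3 := by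
  classical
  have h : ∀ a b : ℝ, -1 ≤ b → pt a b ∉ (Finset.range I ×ˢ Finset.range J).image (U I) := by
    intro a b hb hm
    obtain ⟨z, hz, e⟩ := Finset.mem_image.1 hm
    have := (facts (Finset.mem_range.1 (Finset.mem_product.1 hz).1) z.2).2.2.2.1
    rw [U, pt_inj] at e
    linarith [e.2]
  rw [PP, Finset.card_insert_of_notMem, Finset.card_insert_of_notMem,
    Finset.card_insert_of_notMem (h _ _ (by norm_num)), Finset.card_image_of_injOn]
  · simp
  · intro z hz w hw e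
    exact U_inj (Finset.mem_range.1 (Finset.mem_product.1 hz).1)
      (Finset.mem_range.1 (Finset.mem_product.1 hw).1) e
  · simp only [Finset.mem_insert, not_or, pt_inj]
    exact ⟨by norm_num, h _ _ (by norm_num)⟩
  · simp only [cc, Finset.mem_insert, not_or, pt_inj]
    exact ⟨by norm_num, by norm_num, h _ _ le_rfl⟩

theorem conv_PP (I J : ℕ) : ∀ x ∈ PP I J, x ∉ convexHull ℝ ((PP I J : Set E) \ {x}) := by
  have h0 := s_pos I
  have h1 := s_le I
  intro x hx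
  rcases mem_PP.1 hx with rfl | rfl | rfl | ⟨z, hz, rfl⟩
  · refine notMem_hull 1 (-(s I / 2)) fun y hy hn => ?_
    rcases mem_PP.1 hy with rfl | rfl | rfl | ⟨w, hw, rfl⟩
    · exact absurd rfl hn
    · simp [cc, pt]
      linarith
    · simp [cc, pt]
      linarith
    · obtain ⟨-, a2, -, -, a5⟩ := facts hw.1 w.2
      have := s_lt hw.1
      simp [cc, pt, U]
      nlinarith
  · refine notMem_hull 1 (-(s I / 8)) fun y hy hn => ?_
    rcases mem_PP.1 hy with rfl | rfl | rfl | ⟨w, hw, rfl⟩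
    · simp [cc, pt]
      linarith
    · exact absurd rfl hn
    · simp [pt]
      linarith
    · obtain ⟨-, a2, -, -, a5⟩ := facts hw.1 w.2
      have := s_lt hw.1
      simp [pt, U]
      nlinarith
  · refine notMem_hull 0 1 fun y hy hn => ?_
    rcases mem_PP.1 hy with rfl | rfl | rfl | ⟨w, hw, rfl⟩
    · simp [cc, pt]
    · simp [pt]
    · exact absurd rfl hn
    · obtain ⟨-, -, -, a4, -⟩ := facts hw.1 w.2
      simp [pt, U]
      linarith
  · obtain ⟨a1, a2, a3, a4, a5⟩ := facts hz.1 z.2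
    have h2 := s_pos z.1
    have h3 := s_le z.1
    refine notMem_hull (-xx I z.1 z.2) (-hh I z.1 z.2) fun y hy hn => ?_
    rcases mem_PP.1 hy with rfl | rfl | rfl | ⟨w, hw, rfl⟩
    · simp [cc, pt, U]
      nlinarith
    · simp [pt, U]
      nlinarith
    · simp [pt, U]
      nlinarith
    · have := U_supp hz.1 hw.1 hn
      simp [pt, U]
      nlinarith

theorem dU_U {I : ℕ} {z w : ℕ × ℕ} (hz : z.1 < I) (hw : w.1 < I) :
    dist (U I z) (U I w) ≤ 2 / 5 := by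
  obtain ⟨-, a2, a3, a4, a5⟩ := facts hz z.2
  obtain ⟨-, b2, b3, b4, b5⟩ := facts hw w.2
  have h1 := s_pos z.1
  have h2 := s_pos w.1
  have h3 := s_le z.1
  have h4 := s_le w.1
  rw [U, U, dist_pt]
  refine Real.sqrt_le_iff.2 ⟨by norm_num, ?_⟩
  have e1 : (-xx I z.1 z.2 - -xx I w.1 w.2) ^ 2 ≤ (1 / 5) ^ 2 :=
    sq_le_sq' (by linarith) (by linarith)
  have e2 : (-hh I z.1 z.2 - -hh I w.1 w.2) ^ 2 ≤ (1 / 5) ^ 2 :=
    sq_le_sq' (by linarith) (by linarith)
  linarith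

theorem dU_c {I : ℕ} {z : ℕ × ℕ} (hz : z.1 < I) :
    9 / 20 ≤ dist (U I z) (cc I) ∧ dist (U I z) (cc I) ≤ 3 / 5 := by
  obtain ⟨-, a2, a3, a4, a5⟩ := facts hz z.2
  have h1 := s_pos z.1
  have h2 := s_pos I
  have h3 := s_le z.1
  have h4 := s_le I
  rw [U, cc, dist_pt]
  have e1 : (-xx I z.1 z.2 - -(s I / 4)) ^ 2 ≤ (1 / 5) ^ 2 :=
    sq_le_sq' (by linarith) (by linarith)
  refine ⟨Real.le_sqrt_of_sq_le ?_, Real.sqrt_le_iff.2 ⟨by norm_num, ?_⟩⟩
  · nlinarith [sq_nonneg (-xx I z.1 z.2 - -(s I / 4))]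
  · nlinarith

open Classical in
noncomputable def TT (I J : ℕ) (τ : ℝ) : Finset ℝ :=
  insert τ (insert 1 (insert (1 + s I ^ 2 / 16) (insert (4 + s I ^ 2 / 16)
    ((Finset.range I).image (fun i => 9 / 4 + s i ^ 2) ∪
      (Finset.range J).image fun j => 25 / 4 + eta I j))))

theorem mem_TT {I J : ℕ} {τ x : ℝ} : x ∈ TT I J τ ↔
    x = τ ∨ x = 1 ∨ x = 1 + s I ^ 2 / 16 ∨ x = 4 + s I ^ 2 / 16 ∨
      (∃ i < I, 9 / 4 + s i ^ 2 = x) ∨ ∃ j < J, 25 / 4 + eta I j = x := by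
  simp only [TT, Finset.mem_insert, Finset.mem_union, Finset.mem_image, Finset.mem_range]

theorem card_TT (I J : ℕ) {τ : ℝ} (h : τ < 1) : (TT I J τ).card = I + J + 4 := by
  classical
  have h0 : ∀ i, 0 < s i ^ 2 ∧ s i ^ 2 ≤ 1 / 100 := fun i => by
    have h1 := s_pos i
    have h2 := s_le i
    exact ⟨by positivity, by nlinarith⟩
  have h1 : ∀ x : ℝ, x < 2 ∨ (3 < x ∧ x < 6) →
      x ∉ (Finset.range I).image (fun i => 9 / 4 + s i ^ 2) ∪
        (Finset.range J).image fun j => 25 / 4 + eta I j := by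
    intro x hx hm
    simp only [Finset.mem_union, Finset.mem_image] at hm
    rcases hm with ⟨i, -, rfl⟩ | ⟨j, -, rfl⟩
    · have := h0 i
      rcases hx with hx | hx <;> linarith
    · have := eta_pos I j
      rcases hx with hx | hx <;> linarith
  have h2 := h0 I
  rw [TT, Finset.card_insert_of_notMem, Finset.card_insert_of_notMem,
    Finset.card_insert_of_notMem, Finset.card_insert_of_notMem (h1 _ (Or.inr ⟨by linarith,
      by linarith⟩)), Finset.card_union_of_disjoint, Finset.card_image_of_injective,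
    Finset.card_image_of_injective]
  · simp
  · intro i j e
    exact eta_inj (I := I) (by linarith)
  · intro i j e
    exact s_inj (by linarith)
  · rw [Finset.disjoint_left]
    intro x hx hy
    obtain ⟨i, -, rfl⟩ := Finset.mem_image.1 hx
    obtain ⟨j, -, e⟩ := Finset.mem_image.1 hy
    have := h0 i
    have := eta_pos I j
    linarith
  · simp only [Finset.mem_insert, not_or]
    exact ⟨by linarith, h1 _ (Or.inl (by linarith))⟩
  · simp only [Finset.mem_insert, not_or]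
    exact ⟨by linarith, by linarith, h1 _ (Or.inl (by linarith))⟩
  · simp only [Finset.mem_insert, not_or]
    exact ⟨by linarith, by linarith, by linarith, h1 _ (Or.inl (by linarith))⟩

theorem d_pq : dist (pt 0 0) (pt 0 1) = √1 := by
  rw [dist_pt]
  norm_num

theorem d_cp (I : ℕ) : dist (cc I) (pt 0 0) = √(1 + s I ^ 2 / 16) := by
  rw [cc, dist_pt]
  congr 1
  ring

theorem d_cq (I : ℕ) : dist (cc I) (pt 0 1) = √(4 + s I ^ 2 / 16) := by
  rw [cc, dist_pt]
  congr 1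
  ring

theorem main {I J : ℕ} (hI : 0 < I) (hJ : 0 < J) : ∃ t : ℝ,
    {d | t ≤ d ∧ ∃ x ∈ PP I J, ∃ y ∈ PP I J, x ≠ y ∧ d = dist x y}.ncard = I + J + 4 ∧
      ∃ Q ⊆ PP I J, Q.card = 4 ∧ ∀ x ∈ Q, ∀ y ∈ Q, x ≠ y → t ≤ dist x y := by
  classical
  obtain ⟨z, hz, hmax⟩ := (Finset.range I ×ˢ Finset.range J).exists_max_image
    (fun w => dist (U I w) (cc I)) ⟨(0, 0), by simp [hI, hJ]⟩
  simp only [Finset.mem_product, Finset.mem_range] at hz hmax
  obtain ⟨t1, t2⟩ := dU_c hz.1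
  set t := dist (U I z) (cc I) with ht
  have big : ∀ x : ℝ, 1 ≤ x → t ≤ √x := fun x hx =>
    Real.le_sqrt_of_sq_le (by nlinarith)
  have mc : cc I ∈ PP I J := mem_PP.2 (Or.inl rfl)
  have mp : pt 0 0 ∈ PP I J := mem_PP.2 (Or.inr (Or.inl rfl))
  have mq : pt 0 1 ∈ PP I J := mem_PP.2 (Or.inr (Or.inr (Or.inl rfl)))
  have mU : ∀ w : ℕ × ℕ, w.1 < I ∧ w.2 < J → U I w ∈ PP I J := fun w hw =>
    mem_PP.2 (Or.inr (Or.inr (Or.inr ⟨w, hw, rfl⟩)))
  have tt : √(t ^ 2) = t := Real.sqrt_sq (by linarith)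
  have ne : ∀ x y : E, t ≤ dist x y → x ≠ y := by
    rintro x y h rfl
    rw [dist_self] at h
    linarith
  have bp : ∀ i, t ≤ √(9 / 4 + s i ^ 2) := fun i => big _ (by nlinarith [sq_nonneg (s i)])
  have bq : ∀ j, t ≤ √(25 / 4 + eta I j) := fun j => big _ (by linarith [eta_pos I j])
  have b1 : t ≤ √(1 + s I ^ 2 / 16) := big _ (by nlinarith [sq_nonneg (s I)])
  have b4 : t ≤ √(4 + s I ^ 2 / 16) := big _ (by nlinarith [sq_nonneg (s I)])
  have b0 : t ≤ √1 := big _ le_rfl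
  refine ⟨t, ?_, {cc I, pt 0 0, pt 0 1, U I z}, ?_, ?_, ?_⟩
  · have e : {d | t ≤ d ∧ ∃ x ∈ PP I J, ∃ y ∈ PP I J, x ≠ y ∧ d = dist x y} =
        Real.sqrt '' (TT I J (t ^ 2) : Set ℝ) := by
      ext d
      simp only [Set.mem_ofPred_eq, Set.mem_image, Finset.mem_coe]
      constructor
      · rintro ⟨hd, x, hx, y, hy, hn, rfl⟩
        have key : ∀ x y : E, (x = cc I ∨ x = pt 0 0 ∨ x = pt 0 1) → y ∈ PP I J → x ≠ y →
            t ≤ dist x y → ∃ a ∈ TT I J (t ^ 2), √a = dist x y := by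
          intro x y hx hy hn hd
          have m1 : (1 : ℝ) ∈ TT I J (t ^ 2) := mem_TT.2 (by simp)
          have m2 : 1 + s I ^ 2 / 16 ∈ TT I J (t ^ 2) := mem_TT.2 (by simp)
          have m3 : 4 + s I ^ 2 / 16 ∈ TT I J (t ^ 2) := mem_TT.2 (by simp)
          rcases mem_PP.1 hy with rfl | rfl | rfl | ⟨w, hw, rfl⟩ <;> rcases hx with rfl | rfl | rfl
          · exact absurd rfl hn
          · exact ⟨_, m2, by rw [dist_comm, d_cp]⟩
          · exact ⟨_, m3, by rw [dist_comm, d_cq]⟩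
          · exact ⟨_, m2, by rw [d_cp]⟩
          · exact absurd rfl hn
          · exact ⟨_, m1, by rw [dist_comm, d_pq]⟩
          · exact ⟨_, m3, by rw [d_cq]⟩
          · exact ⟨_, m1, by rw [d_pq]⟩
          · exact absurd rfl hn
          · rw [dist_comm] at hd ⊢
            exact ⟨_, mem_TT.2 (Or.inl rfl), by rw [tt]; exact le_antisymm hd (hmax w hw)⟩
          · exact ⟨_, mem_TT.2 (Or.inr (Or.inr (Or.inr (Or.inr (Or.inl ⟨_, hw.1, rfl⟩))))),
              by rw [dist_comm, dU_p hw.1]⟩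
          · exact ⟨_, mem_TT.2 (Or.inr (Or.inr (Or.inr (Or.inr (Or.inr ⟨_, hw.2, rfl⟩))))),
              by rw [dist_comm, dU_q hw.1]⟩
        rcases mem_PP.1 hx with h | h | h | ⟨w, hw, rfl⟩
        · exact key x y (Or.inl h) hy hn hd
        · exact key x y (Or.inr (Or.inl h)) hy hn hd
        · exact key x y (Or.inr (Or.inr h)) hy hn hd
        · rw [dist_comm] at hd ⊢
          rcases mem_PP.1 hy with h | h | h | ⟨v, hv, rfl⟩
          · exact key y _ (Or.inl h) hx hn.symm hd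
          · exact key y _ (Or.inr (Or.inl h)) hx hn.symm hd
          · exact key y _ (Or.inr (Or.inr h)) hx hn.symm hd
          · have := dU_U hv.1 hw.1
            linarith
      · rintro ⟨a, ha, rfl⟩
        rcases mem_TT.1 ha with rfl | rfl | rfl | rfl | ⟨i, hi, rfl⟩ | ⟨j, hj, rfl⟩
        · exact ⟨tt.ge, _, mU z hz, _, mc, ne _ _ le_rfl, tt⟩
        · exact ⟨b0, _, mp, _, mq, ne _ _ (d_pq ▸ b0), d_pq.symm⟩
        · exact ⟨b1, _, mc, _, mp, ne _ _ (d_cp I ▸ b1), (d_cp I).symm⟩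
        · exact ⟨b4, _, mc, _, mq, ne _ _ (d_cq I ▸ b4), (d_cq I).symm⟩
        · have e := dU_p (I := I) (z := (i, 0)) hi
          exact ⟨bp i, _, mU (i, 0) ⟨hi, hJ⟩, _, mp, ne _ _ (e ▸ bp i), e.symm⟩
        · have e := dU_q (I := I) (z := (0, j)) hI
          exact ⟨bq j, _, mU (0, j) ⟨hI, hj⟩, _, mq, ne _ _ (e ▸ bq j), e.symm⟩
    have nn : ∀ a ∈ TT I J (t ^ 2), 0 ≤ a := by
      intro a ha
      rcases mem_TT.1 ha with rfl | rfl | rfl | rfl | ⟨i, hi, rfl⟩ | ⟨j, hj, rfl⟩ <;>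
        first | positivity | linarith [eta_pos I j]
    rw [e, Set.InjOn.ncard_image fun a ha b hb h => (Real.sqrt_inj (nn a ha) (nn b hb)).1 h,
      Set.ncard_coe_finset, card_TT I J (by nlinarith)]
  · intro x hx
    simp only [Finset.mem_insert, Finset.mem_singleton] at hx
    rcases hx with rfl | rfl | rfl | rfl
    exacts [mc, mp, mq, mU z hz]
  · rw [Finset.card_eq_four]
    exact ⟨_, _, _, _, ne _ _ (d_cp I ▸ b1), ne _ _ (d_cq I ▸ b4), (ne _ _ le_rfl).symm,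
      ne _ _ (d_pq ▸ b0), (ne _ _ (dU_p hz.1 ▸ bp _)).symm, (ne _ _ (dU_q hz.1 ▸ bq _)).symm, rfl⟩
  · have c1 := d_cp I ▸ b1
    have c2 := d_cq I ▸ b4
    have c3 := d_pq ▸ b0
    have c4 := dU_p hz.1 ▸ bp z.1
    have c5 := dU_q hz.1 ▸ bq z.2
    intro x hx y hy hn
    simp only [Finset.mem_insert, Finset.mem_singleton] at hx hy
    rcases hx with rfl | rfl | rfl | rfl <;> rcases hy with rfl | rfl | rfl | rfl <;>
      first | exact absurd rfl hn | assumption | exact le_rfl | (rw [dist_comm]; assumption) |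
        (rw [dist_comm])

end Pool.Agent.P.MP_0f6975_co.Quad
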